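import Mathlib
import Pool.Agent.Lib.MP_233400_co.AT.AsmA

set_option autoImplicit false

/-!
# The Erdős–Sós conjecture

Every finite graph with `n` vertices and more than `(k - 1) n / 2` edges contains every tree with `k`
edges. Deduced from the theorem on rainbow homomorphisms `S_THF` (helper78) with the puzzle graph
(helper12): the vertices are the permutations `σ` of the vertex set (`σ a` is the position of the
label `a`, `o` is the hole), an edge exchanges the hole and a label at a neighbour of the hole, and the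
colour of the edge is this label.
-/

namespace Pool.Agent.Lib.ErdosSos

open Pool.Agent.Lib.MP_233400_co

section puzzle

variable {V : Type} [Fintype V] [DecidableEq V]

/-- the puzzle graph of `G` with the hole `o` -/
def puz (G : SimpleGraph V) (o : V) : SimpleGraph (Equiv.Perm V) where
  Adj σ τ := ∃ a, a ≠ o ∧ τ = σ * Equiv.swap o a ∧ G.Adj (σ o) (σ a)
  symm := ⟨by
    rintro σ τ ⟨a, ha, rfl, h⟩
    refine ⟨a, ha, ?_, ?_⟩
    · rw [mul_assoc, Equiv.swap_mul_self, mul_one]
    · simpa using h.symm⟩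
  loopless := ⟨by
    rintro σ ⟨a, ha, h, h'⟩
    have : σ o = σ a := by
      conv_lhs => rw [h]
      simp
    rw [this] at h'
    exact G.loopless.irrefl _ h'⟩

/-- numbers for the labels -/
noncomputable def enc (v : V) : ℕ := (Fintype.equivFin V v).val

omit [DecidableEq V] in
lemma enc_inj {v w : V} (h : enc v = enc w) : v = w :=
  (Fintype.equivFin V).injective (Fin.ext h)

/-- the colour of an edge: (twice the number of) the label -/
noncomputable def col (o : V) : Sym2 (Equiv.Perm V) → ℕ :=
  Sym2.lift ⟨fun σ τ => enc ((σ⁻¹ * τ) o) + enc ((τ⁻¹ * σ) o), fun _ _ => add_comm _ _⟩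

/-- the label of an edge -/
def lab (o : V) (σ τ : Equiv.Perm V) : V := (σ⁻¹ * τ) o

lemma puz_lab {G : SimpleGraph V} {o : V} {σ τ : Equiv.Perm V} (h : (puz G o).Adj σ τ) :
    lab o σ τ ≠ o ∧ τ = σ * Equiv.swap o (lab o σ τ) ∧ G.Adj (σ o) (σ (lab o σ τ)) ∧
      col o s(σ, τ) = 2 * enc (lab o σ τ) := by
  obtain ⟨a, ha, rfl, h⟩ := h
  have h1 : lab o σ (σ * Equiv.swap o a) = a := by
    simp [lab]
  have h2 : ((σ * Equiv.swap o a)⁻¹ * σ) o = a := by
    simp [mul_inv_rev]
  rw [h1]
  refine ⟨ha, rfl, h, ?_⟩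
  change enc (lab o σ (σ * Equiv.swap o a)) + enc (((σ * Equiv.swap o a)⁻¹ * σ) o) = _
  rw [h1, h2, two_mul]

lemma puz_proper (G : SimpleGraph V) (o : V) : ProperColouring (puz G o) (col o) := by
  intro σ τ τ' h h' hne he
  obtain ⟨-, h1, -, h2⟩ := puz_lab h
  obtain ⟨-, h3, -, h4⟩ := puz_lab h'
  rw [h2, h4] at he
  have : lab o σ τ = lab o σ τ' := enc_inj (by omega)
  apply hne
  rw [h1, h3, this]

lemma puz_degree (G : SimpleGraph V) (o : V) (σ : Equiv.Perm V) [DecidableRel G.Adj]
    [DecidableRel (puz G o).Adj] : (puz G o).degree σ = G.degree (σ o) := by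
  rw [← SimpleGraph.card_neighborFinset_eq_degree, ← SimpleGraph.card_neighborFinset_eq_degree]
  refine Finset.card_nbij' (fun τ => σ (lab o σ τ)) (fun w => σ * Equiv.swap o (σ⁻¹ w)) ?_ ?_ ?_ ?_
  · intro τ hτ
    simp only [SimpleGraph.coe_neighborFinset, SimpleGraph.mem_neighborSet] at hτ ⊢
    exact (puz_lab hτ).2.2.1
  · intro w hw
    simp only [SimpleGraph.coe_neighborFinset, SimpleGraph.mem_neighborSet] at hw ⊢
    refine ⟨σ⁻¹ w, ?_, rfl, ?_⟩
    · intro h
      have : w = σ o := by rw [← h]; simp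
      rw [this] at hw
      exact G.loopless.irrefl _ hw
    · simpa using hw
  · intro τ hτ
    simp only [SimpleGraph.coe_neighborFinset, SimpleGraph.mem_neighborSet] at hτ
    have h1 := (puz_lab hτ).2.1
    have h2 : σ⁻¹ (σ (lab o σ τ)) = lab o σ τ := by simp
    simp only [h2]
    exact h1.symm
  · intro w _
    simp [lab]

lemma puz_sum (G : SimpleGraph V) (o : V) [DecidableRel G.Adj] :
    Fintype.card V * ∑ σ : Equiv.Perm V, G.degree (σ o) =
      (Fintype.card V).factorial * ∑ v, G.degree v := by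
  have h1 : ∀ w : V, ∑ σ : Equiv.Perm V, G.degree (σ w) = ∑ σ : Equiv.Perm V, G.degree (σ o) := by
    intro w
    rw [← Equiv.sum_comp (Equiv.mulRight (Equiv.swap o w)) (fun σ : Equiv.Perm V => G.degree (σ o))]
    refine Finset.sum_congr rfl fun σ _ => ?_
    change G.degree (σ w) = G.degree ((σ * Equiv.swap o w) o)
    rw [Equiv.Perm.mul_apply, Equiv.swap_apply_left]
  calc Fintype.card V * ∑ σ : Equiv.Perm V, G.degree (σ o)
      = ∑ w : V, ∑ σ : Equiv.Perm V, G.degree (σ w) := by
        rw [Finset.sum_congr rfl fun w _ => h1 w, Finset.sum_const, Finset.card_univ, smul_eq_mul]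
    _ = ∑ σ : Equiv.Perm V, ∑ w : V, G.degree (σ w) := Finset.sum_comm
    _ = ∑ σ : Equiv.Perm V, ∑ v : V, G.degree v := by
        refine Finset.sum_congr rfl fun σ _ => ?_
        exact Equiv.sum_comp σ (fun v => G.degree v)
    _ = _ := by
        rw [Finset.sum_const, Finset.card_univ, smul_eq_mul, Fintype.card_perm]

lemma puz_edges (G : SimpleGraph V) (o : V) :
    Nat.card V * (2 * (puz G o).edgeSet.ncard) =
      Nat.card (Equiv.Perm V) * (2 * G.edgeSet.ncard) := by
  classical
  have h1 : 2 * (puz G o).edgeSet.ncard = ∑ σ : Equiv.Perm V, G.degree (σ o) := by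
    rw [← SimpleGraph.coe_edgeFinset, Set.ncard_coe_finset,
      ← SimpleGraph.sum_degrees_eq_twice_card_edges]
    exact Finset.sum_congr rfl fun σ _ => puz_degree G o σ
  have h2 : 2 * G.edgeSet.ncard = ∑ v, G.degree v := by
    rw [← SimpleGraph.coe_edgeFinset, Set.ncard_coe_finset,
      ← SimpleGraph.sum_degrees_eq_twice_card_edges]
  rw [h1, h2, Nat.card_eq_fintype_card, Nat.card_eq_fintype_card, Fintype.card_perm]
  exact puz_sum G o

variable {W : Type}

/-- along a trail of the tree the hole moves to the first position of one of the labels -/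
lemma walk_aux {G : SimpleGraph V} {o : V} {T : SimpleGraph W} {g : W → Equiv.Perm V}
    (hg : ∀ a b, T.Adj a b → (puz G o).Adj (g a) (g b))
    (hinj : Set.InjOn (fun e : Sym2 W => col o (e.map g)) T.edgeSet) :
    ∀ {u v : W} (p : T.Walk u v), p.IsTrail → p.length = 0 ∨
      ∃ d ∈ p.darts, g v o = g u (lab o (g d.fst) (g d.snd)) := by
  intro u v p
  induction p with
  | nil => intro _; exact Or.inl rfl
  | @cons u u' v h p ih =>
    intro ht
    rw [SimpleGraph.Walk.isTrail_cons] at ht
    obtain ⟨-, h1, -, h2⟩ := puz_lab (hg _ _ h)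
    right
    rcases ih ht.1 with h0 | ⟨d, hd, h3⟩
    · have hv : u' = v := SimpleGraph.Walk.eq_of_length_eq_zero h0
      refine ⟨⟨(u, u'), h⟩, by simp, ?_⟩
      subst hv
      change g u' o = g u (lab o (g u) (g u'))
      conv_lhs => rw [h1]
      simp
    · obtain ⟨h4, -, -, h5⟩ := puz_lab (hg _ _ d.adj)
      refine ⟨d, by simp [hd], ?_⟩
      rw [h3]
      have h6 : lab o (g d.fst) (g d.snd) ≠ lab o (g u) (g u') := by
        intro he
        have h7 : s(d.fst, d.snd) = s(u, u') := by
          apply hinj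
          · exact d.adj
          · exact h
          · change col o s(g d.fst, g d.snd) = col o s(g u, g u')
            rw [h5, h2, he]
        apply ht.2
        rw [← h7]
        exact List.mem_map.mpr ⟨d, hd, rfl⟩
      conv_lhs => rw [h1]
      rw [Equiv.Perm.mul_apply, Equiv.swap_apply_of_ne_of_ne h4 h6]

end puzzle

/-- **The Erdős–Sós conjecture** (vertex types in `Type`). -/
theorem main0 (V W : Type) [Finite V] [Finite W] (G : SimpleGraph V) (T : SimpleGraph W) (k : ℕ)
    (hT : T.IsTree) (hk : T.edgeSet.ncard = k) (hk1 : 1 ≤ k)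
    (hd : (k - 1) * Nat.card V < 2 * G.edgeSet.ncard) :
    ∃ f : W → V, Function.Injective f ∧ ∀ a b, T.Adj a b → G.Adj (f a) (f b) := by
  classical
  have := Fintype.ofFinite V
  have hV : 0 < Nat.card V := by
    by_contra h0
    have h0 : Nat.card V = 0 := by omega
    have : IsEmpty V := Finite.card_eq_zero_iff.mp h0
    have h1 : G.edgeSet = ∅ := by
      ext e
      simp only [Set.mem_empty_iff_false, iff_false]
      induction e with
      | h x y => exact this.elim x
    rw [h1] at hd
    simp at hd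
  obtain ⟨o⟩ : Nonempty V := (Nat.card_pos_iff.mp hV).1
  have h1 : (k - 1) * Nat.card (Equiv.Perm V) < 2 * (puz G o).edgeSet.ncard := by
    have h2 := puz_edges G o
    have h3 : 0 < Nat.card (Equiv.Perm V) := Nat.card_pos
    have h4 : Nat.card V * ((k - 1) * Nat.card (Equiv.Perm V)) <
        Nat.card V * (2 * (puz G o).edgeSet.ncard) := by
      rw [h2]
      calc Nat.card V * ((k - 1) * Nat.card (Equiv.Perm V))
          = Nat.card (Equiv.Perm V) * ((k - 1) * Nat.card V) := by ring
        _ < _ := Nat.mul_lt_mul_of_pos_left hd h3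
    exact Nat.lt_of_mul_lt_mul_left h4
  obtain ⟨g, hg, hinj⟩ := AT.a_THF (Equiv.Perm V) W (puz G o) (col o) T k (puz_proper G o) hT hk hk1 h1
  refine ⟨fun w => g w o, ?_, ?_⟩
  · intro w w' he
    by_contra hne
    obtain ⟨p⟩ := hT.connected.preconnected w w'
    have hp : p.toPath.val.IsTrail := p.toPath.property.isTrail
    rcases walk_aux hg hinj p.toPath.val hp with h0 | ⟨d, -, h3⟩
    · exact hne (SimpleGraph.Walk.eq_of_length_eq_zero h0)
    · obtain ⟨h4, -, -, -⟩ := puz_lab (hg _ _ d.adj)
      have h5 : g w' o = g w o := he.symm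
      rw [h3] at h5
      exact h4 ((g w).injective h5)
  · intro a b hab
    obtain ⟨-, h2, h3, -⟩ := puz_lab (hg a b hab)
    have h4 : g b o = g a (lab o (g a) (g b)) := by
      conv_lhs => rw [h2]
      simp
    change G.Adj (g a o) (g b o)
    rw [h4]
    exact h3

/-- **The Erdős–Sós conjecture**: if `G` is a finite graph with more than `(k - 1) n / 2` edges,
`n` the number of its vertices, then `G` contains every tree with `k` edges. -/
theorem erdos_sos {V : Type*} {W : Type*} [Finite V] [Finite W] (G : SimpleGraph V)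
    (T : SimpleGraph W) (k : ℕ) (hT : T.IsTree) (hk : T.edgeSet.ncard = k) (hk1 : 1 ≤ k)
    (hd : (k - 1) * Nat.card V < 2 * G.edgeSet.ncard) : T.IsContained G := by
  classical
  obtain ⟨n, ⟨eV⟩⟩ := Finite.exists_equiv_fin V
  obtain ⟨m, ⟨eW⟩⟩ := Finite.exists_equiv_fin W
  let G' : SimpleGraph (Fin n) := G.map eV.toEmbedding
  let T' : SimpleGraph (Fin m) := T.map eW.toEmbedding
  let iG : G ≃g G' := SimpleGraph.Iso.map eV G
  let iT : T ≃g T' := SimpleGraph.Iso.map eW T
  have hT' : T'.IsTree := iT.isTree_iff.mp hT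
  have hk' : T'.edgeSet.ncard = k := by
    rw [← hk]
    exact (Set.ncard_congr' iT.mapEdgeSet).symm
  have hG' : G'.edgeSet.ncard = G.edgeSet.ncard := (Set.ncard_congr' iG.mapEdgeSet).symm
  have hd' : (k - 1) * Nat.card (Fin n) < 2 * G'.edgeSet.ncard := by
    rw [hG', ← Nat.card_congr eV]
    exact hd
  obtain ⟨f, hf, hadj⟩ := main0 (Fin n) (Fin m) G' T' k hT' hk' hk1 hd'
  refine ⟨⟨⟨fun w => eV.symm (f (eW w)), ?_⟩, ?_⟩⟩
  · intro a b hab
    have h1 : T'.Adj (eW a) (eW b) := iT.map_adj_iff.mpr hab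
    have h2 := hadj _ _ h1
    exact iG.symm.map_adj_iff.mpr h2
  · intro a b hab
    have h1 : eV.symm (f (eW a)) = eV.symm (f (eW b)) := hab
    exact eW.injective (hf (eV.symm.injective h1))

end Pool.Agent.Lib.ErdosSos
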